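import Pool.Agent.Helper76.CV.Goals

/-! Packet CV-FIS (MP_eec6f5_gt). -/

set_option autoImplicit false

open scoped ContDiff
open Filter Topology

namespace Pool.Agent.Helper83.CV.FIS

open Pool.Agent.Helper76.CV

theorem wr_pos {r : ℕ} (y : E (r + 3)) (hy : ‖y‖ ≤ 1) : 0 < wr y := by
  have h1 : ‖y 0‖ ≤ ‖y‖ := PiLp.norm_apply_le y 0
  rw [Real.norm_eq_abs] at h1
  have h2 := neg_abs_le (y 0)
  unfold wr
  linarith

theorem t (hXB : XB) (hA : WRA) (hB : WRB) : FIS := by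
  intro r D hD hNF
  refine ⟨fun p hp => ?_, fun p hp ξ hT hf => ?_⟩
  · obtain ⟨n, m, κ, L, hpos, hκ, hH, -⟩ := hNF p hp
    have hw : 0 < wr p.1.2 := wr_pos _ (hXB r D p hD hp).2.2.1
    rintro ⟨u₁, u₂⟩
    set N2 := ‖n‖ ^ 2 + m ^ 2 with hN2
    set μ := (u₁ + Real.sin p.2 * u₂) / (κ * N2) with hμ
    refine ⟨((μ * m / wr p.1.2, μ • n), u₂ + L (μ * m / wr p.1.2, μ • n)), ?_⟩
    rw [hH]
    have e1 : wr p.1.2 * (μ * m / wr p.1.2) = μ * m := by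
      field_simp
    have e2 : inner ℝ n (μ • n) = μ * ‖n‖ ^ 2 := by
      rw [inner_smul_right, real_inner_self_eq_norm_sq]
    have e3 : κ * (μ * ‖n‖ ^ 2 + m * (μ * m)) = u₁ + Real.sin p.2 * u₂ := by
      have : κ * (μ * ‖n‖ ^ 2 + m * (μ * m)) = μ * (κ * N2) := by
        rw [hN2]
        ring
      rw [this, hμ, div_mul_cancel₀ _ (mul_ne_zero hκ hpos.ne')]
    simp only [e1, e2, e3, add_sub_cancel_right]
  · obtain ⟨n, m, κ, L, hpos, hκ, hH, -⟩ := hNF p hp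
    have hw : 0 < wr p.1.2 := wr_pos _ (hXB r D p hD hp).2.2.1
    rw [(hB r).2.2.2 p ξ] at hf
    have h1 : Rf (4 / 5 * p.1.1) ξ.1.2 (wr p.1.2 * ξ.1.1) = 0 := by
      rcases smul_eq_zero.1 hf with h | h
      · norm_num at h
      · exact h
    have h2 := hA.2.1 r (4 / 5 * p.1.1) ξ.1.2 (wr p.1.2 * ξ.1.1)
    rw [h1, norm_zero] at h2
    have h3 : ‖ξ.1.2‖ ^ 2 = 0 := by nlinarith [sq_nonneg ‖ξ.1.2‖, sq_nonneg (wr p.1.2 * ξ.1.1)]
    have h4 : (wr p.1.2 * ξ.1.1) ^ 2 = 0 := by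
      nlinarith [sq_nonneg ‖ξ.1.2‖, sq_nonneg (wr p.1.2 * ξ.1.1)]
    have h5 : ξ.1.2 = 0 := norm_eq_zero.1 (pow_eq_zero_iff two_ne_zero |>.1 h3)
    have h6 : ξ.1.1 = 0 := by
      rcases mul_eq_zero.1 (pow_eq_zero_iff two_ne_zero |>.1 h4) with h | h
      · exact absurd h hw.ne'
      · exact h
    have h7 : ξ.1 = 0 := Prod.ext h6 h5
    have h8 : fderiv ℝ (H D) p ξ = 0 := hT
    rw [hH, h7, map_zero, sub_zero] at h8
    have h9 : ξ.2 = 0 := congrArg (fun q : ℝ × ℝ => q.2) h8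
    exact Prod.ext h7 h9

end Pool.Agent.Helper83.CV.FIS
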